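import Pool.Agent.Helper185.PolCompact

/-!
The polarized relation P does not imply S₁(Ω, Ω): a compact counterexample in ZFC.
-/

namespace Pool.Agent.Results.MP_7b7e09_gt.CompactCounterexample

open Pool.Agent.Helper185.Sel

/-- There is a set of reals (the unit interval) that satisfies the polarized relation for every
number of colours, but does not satisfy `S₁(Ω, Ω)`. -/
theorem result : ∃ X : Set ℝ, (∀ k : ℕ, 1 ≤ k → Polar (OmegaOf (OpenFam X)) k) ∧
    ¬ S1 (OmegaOf (OpenFam X)) (OmegaOf (OpenFam X)) :=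
  ⟨Set.Icc (0 : ℝ) 1, fun k _ => Pool.Agent.Helper185.Pol.polar_sigmaCompact k,
    Pool.Agent.Helper185.Pol.not_s1_Icc⟩

end Pool.Agent.Results.MP_7b7e09_gt.CompactCounterexample
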