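import Pool.Agent.Helper185.PolUp

/-!
The critical cardinality of the polarized relation P is the minimum of the dominating number and
the ultrafilter number.
-/

namespace Pool.Agent.Results.MP_7b7e09_gt.CriticalCardinality

open Pool.Agent.Helper185.Pol

/-- `non(P) = min {𝔡, 𝔲}`. -/
theorem result : nonP = min dNumber uNumber := nonP_eq

end Pool.Agent.Results.MP_7b7e09_gt.CriticalCardinality
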